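import Mathlib

namespace Pool.Agent.MP_7f7a01_al

open Matrix Module
open scoped Kronecker

variable {K : Type*} [Field K]

/-- Subadditivity of the rank. -/
theorem rank_add_le {m n : Type*} [Fintype m] [Fintype n] (A B : Matrix m n K) :
    (A + B).rank ≤ A.rank + B.rank := by
  classical
  unfold Matrix.rank
  have h : LinearMap.range (A + B).mulVecLin ≤
      LinearMap.range A.mulVecLin ⊔ LinearMap.range B.mulVecLin := by
    rintro _ ⟨x, rfl⟩
    rw [Matrix.mulVecLin_add]
    exact Submodule.add_mem_sup ⟨x, rfl⟩ ⟨x, rfl⟩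
  exact (Submodule.finrank_mono h).trans (Submodule.finrank_add_le_finrank_add_finrank _ _)

theorem rank_neg' {m n : Type*} [Fintype m] [Fintype n] (A : Matrix m n K) :
    (-A).rank = A.rank := by
  classical
  apply le_antisymm
  · have h : -A = (-1 : Matrix m m K) * A := by simp
    rw [h]; exact Matrix.rank_mul_le_right _ _
  · have h : A = (-1 : Matrix m m K) * (-A) := by simp
    conv_lhs => rw [h]
    exact Matrix.rank_mul_le_right _ _

theorem rank_sub_le {m n : Type*} [Fintype m] [Fintype n] (A B : Matrix m n K) :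
    (A - B).rank ≤ A.rank + B.rank := by
  rw [sub_eq_add_neg, ← rank_neg' B]
  exact rank_add_le _ _

theorem rank_sum_le {ι m n : Type*} [Fintype m] [Fintype n] (s : Finset ι)
    (A : ι → Matrix m n K) : (∑ i ∈ s, A i).rank ≤ ∑ i ∈ s, (A i).rank := by
  classical
  induction s using Finset.induction_on with
  | empty => simp
  | insert i s hi ih =>
    rw [Finset.sum_insert hi, Finset.sum_insert hi]
    exact (rank_add_le _ _).trans (Nat.add_le_add_left ih _)

theorem rank_smul_le {m n : Type*} [Fintype m] [Fintype n] (c : K) (A : Matrix m n K) :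
    (c • A).rank ≤ A.rank := by
  classical
  have h : c • A = (c • (1 : Matrix m m K)) * A := by simp
  rw [h]; exact Matrix.rank_mul_le_right _ _

/-- every matrix over a field has a generalised inverse -/
theorem exists_genInv {m n : Type*} [Fintype m] [Fintype n] [DecidableEq m] [DecidableEq n]
    (M : Matrix m n K) : ∃ S : Matrix n m K, M * S * M = M := by
  obtain ⟨g0, hg0⟩ := LinearMap.exists_rightInverse_of_surjective
    (M.mulVecLin).rangeRestrict (LinearMap.range_rangeRestrict _)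
  obtain ⟨g, hg⟩ := LinearMap.exists_extend g0
  refine ⟨LinearMap.toMatrix' g, ?_⟩
  have h1 : LinearMap.toMatrix' M.mulVecLin = M := by
    rw [← Matrix.toLin'_apply', LinearMap.toMatrix'_toLin']
  have h2 : M.mulVecLin ∘ₗ g ∘ₗ M.mulVecLin = M.mulVecLin := by
    apply LinearMap.ext
    intro v
    have e1 : g (M.mulVecLin v) = g0 (M.mulVecLin.rangeRestrict v) := by
      rw [← hg]; rfl
    have e2 := congrArg (fun f => f (M.mulVecLin.rangeRestrict v)) hg0
    have e3 := congrArg Subtype.val e2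
    simp only [LinearMap.comp_apply, e1]
    exact e3
  have h3 := congrArg LinearMap.toMatrix' h2
  rw [LinearMap.toMatrix'_comp, LinearMap.toMatrix'_comp, h1] at h3
  rw [Matrix.mul_assoc]; exact h3

/-- rank factorisation -/
theorem exists_rank_factorization {m n : Type*} [Fintype m] [Fintype n] [DecidableEq m]
    [DecidableEq n] (M : Matrix m n K) :
    ∃ (C : Matrix m (Fin M.rank) K) (R : Matrix (Fin M.rank) n K), M = C * R := by
  have e : LinearMap.range M.mulVecLin ≃ₗ[K] (Fin M.rank → K) :=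
    LinearEquiv.ofFinrankEq _ _ (by rw [Module.finrank_fin_fun]; rfl)
  refine ⟨LinearMap.toMatrix' ((LinearMap.range M.mulVecLin).subtype ∘ₗ e.symm.toLinearMap),
    LinearMap.toMatrix' (e.toLinearMap ∘ₗ M.mulVecLin.rangeRestrict), ?_⟩
  rw [← LinearMap.toMatrix'_comp]
  have h1 : LinearMap.toMatrix' M.mulVecLin = M := by
    rw [← Matrix.toLin'_apply', LinearMap.toMatrix'_toLin']
  conv_lhs => rw [← h1]
  congr 1
  apply LinearMap.ext
  intro v
  simp

theorem kronecker_sub' {l m n p : Type*} (A : Matrix l m K) (B C : Matrix n p K) :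
    A ⊗ₖ (B - C) = A ⊗ₖ B - A ⊗ₖ C := by
  ext ⟨i, i'⟩ ⟨j, j'⟩
  simp [Matrix.kroneckerMap_apply, mul_sub]

theorem sub_kronecker' {l m n p : Type*} (A B : Matrix l m K) (C : Matrix n p K) :
    (A - B) ⊗ₖ C = A ⊗ₖ C - B ⊗ₖ C := by
  ext ⟨i, i'⟩ ⟨j, j'⟩
  simp [Matrix.kroneckerMap_apply, sub_mul]

theorem rank_kronecker_le {m n p q : Type*} [Fintype m] [Fintype n] [Fintype p] [Fintype q]
    [DecidableEq m] [DecidableEq n] [DecidableEq p] [DecidableEq q]
    (M : Matrix m n K) (N : Matrix p q K) :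
    (M ⊗ₖ N).rank ≤ M.rank * N.rank := by
  obtain ⟨C, R, h⟩ := exists_rank_factorization M
  obtain ⟨C', R', h'⟩ := exists_rank_factorization N
  have e : M ⊗ₖ N = (C ⊗ₖ C') * (R ⊗ₖ R') := by
    rw [← Matrix.mul_kronecker_mul, ← h, ← h']
  rw [e]
  refine (Matrix.rank_mul_le_left _ _).trans ((Matrix.rank_le_card_width _).trans ?_)
  simp

/-- The key inequality:  `dim ker (B ⊗ A - 1) ≤ dim ker(B-1) dim ker(A-1) + rk(B-1) rk(A-1)`. -/
theorem key {m n : Type*} [Fintype m] [Fintype n] [DecidableEq m] [DecidableEq n]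
    (B Binv : Matrix m m K) (hB : Binv * B = 1) (A : Matrix n n K) :
    Fintype.card m * Fintype.card n ≤ (B ⊗ₖ A - 1).rank +
      ((Fintype.card m - (B - 1).rank) * (Fintype.card n - (A - 1).rank)
        + (B - 1).rank * (A - 1).rank) := by
  obtain ⟨s, hs⟩ := exists_genInv (A - 1)
  obtain ⟨t, ht⟩ := exists_genInv (B - 1)
  have hBB : B * Binv = 1 := mul_eq_one_comm.mp hB
  set N := A - 1 with hN
  set M := B - 1 with hM
  set D := B ⊗ₖ A - 1 with hD
  -- projections
  have rσ : (1 - s * N).rank ≤ Fintype.card n - N.rank := by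
    have h0 : N * (1 - s * N) = 0 := by
      rw [mul_sub, mul_one, ← mul_assoc, hs, sub_self]
    have := Matrix.rank_add_rank_le_card_of_mul_eq_zero h0
    omega
  have rσ' : (1 - t * M).rank ≤ Fintype.card m - M.rank := by
    have h0 : M * (1 - t * M) = 0 := by
      rw [mul_sub, mul_one, ← mul_assoc, ht, sub_self]
    have := Matrix.rank_add_rank_le_card_of_mul_eq_zero h0
    omega
  have rπ : (N * s).rank ≤ N.rank := Matrix.rank_mul_le_left _ _
  have rπ' : (M * t).rank ≤ M.rank := Matrix.rank_mul_le_left _ _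
  set Z := LinearMap.ker D.mulVecLin with hZ
  let f := ((1 : Matrix m m K) ⊗ₖ N).mulVecLin
  have hZmem : ∀ z ∈ Z, (B ⊗ₖ A) *ᵥ z = z := by
    intro z hz
    rw [hZ, LinearMap.mem_ker, Matrix.mulVecLin_apply, hD, Matrix.sub_mulVec, sub_eq_zero,
      Matrix.one_mulVec] at hz
    exact hz
  have hmain := LinearMap.finrank_range_add_finrank_ker (f.domRestrict Z)
  have hker : finrank K (LinearMap.ker (f.domRestrict Z)) ≤
      (Fintype.card m - M.rank) * (Fintype.card n - N.rank) := by
    have h1 : (LinearMap.ker (f.domRestrict Z)).map Z.subtype ≤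
        LinearMap.range ((1 - t * M) ⊗ₖ (1 - s * N)).mulVecLin := by
      rintro _ ⟨⟨z, hz⟩, hzk, rfl⟩
      have hz1 := hZmem z hz
      have hz2 : ((1 : Matrix m m K) ⊗ₖ N) *ᵥ z = 0 := by
        simpa [f] using hzk
      have hz3 : ((1 : Matrix m m K) ⊗ₖ A) *ᵥ z = z := by
        have : (1 : Matrix m m K) ⊗ₖ A = (1 : Matrix m m K) ⊗ₖ N + 1 := by
          rw [hN, kronecker_sub', Matrix.one_kronecker_one, sub_add_cancel]
        rw [this, Matrix.add_mulVec, hz2, zero_add, Matrix.one_mulVec]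
      have hz4 : (B ⊗ₖ (1 : Matrix n n K)) *ᵥ z = z := by
        have : B ⊗ₖ A = (B ⊗ₖ (1 : Matrix n n K)) * ((1 : Matrix m m K) ⊗ₖ A) := by
          rw [← Matrix.mul_kronecker_mul, mul_one, one_mul]
        rw [this, ← Matrix.mulVec_mulVec, hz3] at hz1
        exact hz1
      have hz5 : (M ⊗ₖ (1 : Matrix n n K)) *ᵥ z = 0 := by
        rw [hM, sub_kronecker', Matrix.one_kronecker_one, Matrix.sub_mulVec, hz4,
          Matrix.one_mulVec, sub_self]
      refine ⟨z, ?_⟩
      rw [Matrix.mulVecLin_apply]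
      have e1 : (1 - t * M) ⊗ₖ (1 - s * N) =
          ((1 - t * M) ⊗ₖ (1 : Matrix n n K)) * ((1 : Matrix m m K) ⊗ₖ (1 - s * N)) := by
        rw [← Matrix.mul_kronecker_mul, mul_one, one_mul]
      have e2 : (1 : Matrix m m K) ⊗ₖ (1 - s * N) = 1 -
          ((1 : Matrix m m K) ⊗ₖ s) * ((1 : Matrix m m K) ⊗ₖ N) := by
        rw [← Matrix.mul_kronecker_mul, mul_one, kronecker_sub', Matrix.one_kronecker_one]
      have e3 : (1 - t * M) ⊗ₖ (1 : Matrix n n K) = 1 -
          (t ⊗ₖ (1 : Matrix n n K)) * (M ⊗ₖ (1 : Matrix n n K)) := by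
        rw [← Matrix.mul_kronecker_mul, mul_one, sub_kronecker', Matrix.one_kronecker_one]
      rw [e1, ← Matrix.mulVec_mulVec, e2, Matrix.sub_mulVec, Matrix.one_mulVec,
        ← Matrix.mulVec_mulVec, hz2, Matrix.mulVec_zero, sub_zero, e3, Matrix.sub_mulVec,
        Matrix.one_mulVec, ← Matrix.mulVec_mulVec, hz5, Matrix.mulVec_zero, sub_zero]
      rfl
    have h2 := Submodule.finrank_mono h1
    rw [Submodule.finrank_map_subtype_eq] at h2
    refine h2.trans ?_
    refine (rank_kronecker_le _ _).trans ?_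
    exact Nat.mul_le_mul rσ' rσ
  have hrange : finrank K (LinearMap.range (f.domRestrict Z)) ≤ M.rank * N.rank := by
    have h1 : LinearMap.range (f.domRestrict Z) ≤
        LinearMap.range ((M * t) ⊗ₖ (N * s)).mulVecLin := by
      rintro _ ⟨⟨z, hz⟩, rfl⟩
      have hz1 := hZmem z hz
      refine ⟨((1 : Matrix m m K) ⊗ₖ N) *ᵥ z, ?_⟩
      rw [Matrix.mulVecLin_apply]
      change _ = ((1 : Matrix m m K) ⊗ₖ N) *ᵥ z
      have hy : ((1 : Matrix m m K) ⊗ₖ N) *ᵥ z = ((M * (-Binv)) ⊗ₖ (1 : Matrix n n K)) *ᵥ z := by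
        have e1 : (1 : Matrix m m K) ⊗ₖ N = (1 : Matrix m m K) ⊗ₖ A - 1 := by
          rw [hN, kronecker_sub', Matrix.one_kronecker_one]
        have e2 : M * (-Binv) = Binv - 1 := by
          rw [hM, mul_neg, sub_mul, hBB, one_mul, neg_sub]
        have e3 : ((Binv ⊗ₖ (1 : Matrix n n K)) *ᵥ z) = ((1 : Matrix m m K) ⊗ₖ A) *ᵥ z := by
          conv_lhs => rw [← hz1]
          rw [Matrix.mulVec_mulVec, ← Matrix.mul_kronecker_mul, hB, one_mul]
        rw [e1, e2, sub_kronecker', Matrix.one_kronecker_one, Matrix.sub_mulVec,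
          Matrix.sub_mulVec, e3]
      have e4 : (M * t) ⊗ₖ (N * s) =
          ((M * t) ⊗ₖ (1 : Matrix n n K)) * ((1 : Matrix m m K) ⊗ₖ (N * s)) := by
        rw [← Matrix.mul_kronecker_mul, mul_one, one_mul]
      rw [e4, ← Matrix.mulVec_mulVec, Matrix.mulVec_mulVec _ _ (_ ⊗ₖ N),
        ← Matrix.mul_kronecker_mul, hs, mul_one, hy, Matrix.mulVec_mulVec,
        ← Matrix.mul_kronecker_mul, mul_one, ← mul_assoc, ht]
    exact (Submodule.finrank_mono h1).trans
      ((rank_kronecker_le _ _).trans (Nat.mul_le_mul rπ' rπ))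
  have hD2 : D.rank + finrank K Z = Fintype.card m * Fintype.card n := by
    have := LinearMap.finrank_range_add_finrank_ker D.mulVecLin
    simpa [Matrix.rank] using this
  omega

end Pool.Agent.MP_7f7a01_al
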