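import Mathlib
import Pool.Agent.MP_7f7a01_al.RankLemmas

namespace Pool.Agent.MP_7f7a01_al

open Matrix Module
open scoped Kronecker

variable {K : Type*} [Field K]

/-- Rank of a block diagonal matrix with two blocks (lower bound). -/
theorem rank_fromBlocks_ge {m n : Type*} [Fintype m] [Fintype n] 
    (X : Matrix m m K) (Y : Matrix n n K) :
    X.rank + Y.rank ≤ (fromBlocks X 0 0 Y).rank := by
  classical
  unfold Matrix.rank
  rw [← Module.finrank_prod]
  let g : (LinearMap.range X.mulVecLin × LinearMap.range Y.mulVecLin) →ₗ[K]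
      LinearMap.range (fromBlocks X 0 0 Y).mulVecLin :=
    { toFun := fun p => ⟨Sum.elim p.1.1 p.2.1, by
        obtain ⟨⟨_, x, rfl⟩, ⟨_, y, rfl⟩⟩ := p
        refine ⟨Sum.elim x y, ?_⟩
        rw [Matrix.mulVecLin_apply, Matrix.fromBlocks_mulVec]
        simp⟩
      map_add' := by
        intro p q
        apply Subtype.ext
        funext i
        cases i <;> simp
      map_smul' := by
        intro c p
        apply Subtype.ext
        funext i
        cases i <;> simp }
  refine LinearMap.finrank_le_finrank_of_injective (f := g) ?_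
  intro p q h
  have h1 := congrArg Subtype.val h
  have h2 : Sum.elim p.1.1 p.2.1 = Sum.elim q.1.1 q.2.1 := h1
  apply Prod.ext
  · apply Subtype.ext
    funext i
    exact congrFun h2 (Sum.inl i)
  · apply Subtype.ext
    funext i
    exact congrFun h2 (Sum.inr i)

/-- Rank of a block diagonal matrix (lower bound). -/
theorem rank_blockDiagonal_ge {o m : Type*} [Fintype m] [Fintype o] [DecidableEq o]
    (e : o → Matrix m m K) :
    ∑ a, (e a).rank ≤ (blockDiagonal e).rank := by
  classical
  unfold Matrix.rank
  rw [← Module.finrank_pi_fintype]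
  let g : (∀ a, LinearMap.range (e a).mulVecLin) →ₗ[K]
      LinearMap.range (blockDiagonal e).mulVecLin :=
    { toFun := fun p => ⟨fun i => (p i.2).1 i.1, by
        choose x hx using fun a => (p a).2
        refine ⟨fun i => x i.2 i.1, ?_⟩
        funext i
        rw [Matrix.mulVecLin_apply]
        have := congrFun (hx i.2) i.1
        rw [← this, Matrix.mulVecLin_apply]
        simp only [Matrix.mulVec, dotProduct, Fintype.sum_prod_type, blockDiagonal_apply]
        simp⟩
      map_add' := by
        intro p q
        apply Subtype.ext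
        funext i
        simp
      map_smul' := by
        intro c p
        apply Subtype.ext
        funext i
        simp }
  refine LinearMap.finrank_le_finrank_of_injective (f := g) ?_
  intro p q h
  have h1 := congrArg Subtype.val h
  funext a
  apply Subtype.ext
  funext i
  exact congrFun h1 (i, a)

/-- one-step rank inequality -/
theorem step {m n : Type*} [Fintype m] [Fintype n] [DecidableEq m] [DecidableEq n]
    (B Binv : Matrix m m K) (hB : Binv * B = 1) (A : Matrix n n K) :
    (Fintype.card m - (B - 1).rank) * (A - 1).rank + (B - 1).rank *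
      (Fintype.card n - (A - 1).rank) + (B - 1).rank * Fintype.card n ≤
    (B ⊗ₖ (fromBlocks A 0 0 (1 : Matrix n n K)) - 1).rank := by
  have h1 : (Matrix.reindex (Equiv.prodSumDistrib m n n) (Equiv.prodSumDistrib m n n))
      (B ⊗ₖ (fromBlocks A 0 0 (1 : Matrix n n K)) - 1) =
      fromBlocks (B ⊗ₖ A - 1) 0 0 (B ⊗ₖ (1 : Matrix n n K) - 1) := by
    ext i j
    rcases i with ⟨i, i'⟩ | ⟨i, i'⟩ <;> rcases j with ⟨j, j'⟩ | ⟨j, j'⟩ <;>
      simp [Matrix.kroneckerMap_apply, Matrix.one_apply]
  rw [← Matrix.rank_reindex (Equiv.prodSumDistrib m n n) (Equiv.prodSumDistrib m n n), h1]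
  refine le_trans ?_ (rank_fromBlocks_ge _ _)
  have k1 := key B Binv hB A
  have k2 := key B Binv hB (1 : Matrix n n K)
  have a1 : (B - 1).rank ≤ Fintype.card m := Matrix.rank_le_card_width _
  have a2 : (A - 1).rank ≤ Fintype.card n := Matrix.rank_le_card_width _
  have e0 : ((1 : Matrix n n K) - 1).rank = 0 := by simp
  rw [e0, Nat.sub_zero, mul_zero, add_zero] at k2
  obtain ⟨p, hp⟩ := Nat.exists_eq_add_of_le a1
  obtain ⟨q, hq⟩ := Nat.exists_eq_add_of_le a2
  rw [hp, hq] at k1 k2 ⊢
  simp only [Nat.add_sub_cancel_left] at k1 k2 ⊢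
  nlinarith

end Pool.Agent.MP_7f7a01_al
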