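import Mathlib

namespace Pool.Agent.MP_7f7a01_al

universe u v

/-- The normalised rank distance `d_rank(A, B) = rank(A - B) / n` on `GL(n, K)`. -/
noncomputable def dRank {K : Type u} [Field K] {n : ℕ}
    (A B : Matrix.GeneralLinearGroup (Fin n) K) : ℝ :=
  (((A : Matrix (Fin n) (Fin n) K) - (B : Matrix (Fin n) (Fin n) K)).rank : ℝ) / (n : ℝ)

/-- `G` is `ε`-approximable by `(GL(n, K), d_rank)`: for every finite `F ⊆ G` and every `δ > 0`
there are `n ≥ 1` and a map `φ : G → GL(n, K)` with `d_rank(φ(g)φ(h), φ(gh)) < δ` for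
`g, h ∈ F` and `d_rank(φ(g), φ(h)) > ε - δ` for distinct `g, h ∈ F`. -/
def Approximable (K : Type u) [Field K] (ε : ℝ) (G : Type v) [Group G] : Prop :=
  ∀ (F : Finset G) (δ : ℝ), 0 < δ →
    ∃ n : ℕ, 0 < n ∧ ∃ φ : G → Matrix.GeneralLinearGroup (Fin n) K,
      (∀ g ∈ F, ∀ h ∈ F, dRank (φ g * φ h) (φ (g * h)) < δ) ∧
      (∀ g ∈ F, ∀ h ∈ F, g ≠ h → dRank (φ g) (φ h) > ε - δ)

end Pool.Agent.MP_7f7a01_al
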