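import Mathlib
import Pool.Agent.MP_7f7a01_al.Blocks
import Pool.Agent.MP_7f7a01_al.Defs

namespace Pool.Agent.MP_7f7a01_al

open Matrix Module
open scoped Kronecker

universe u v

/-- The same notion with arbitrary finite index types. -/
def Gen (K : Type u) [Field K] (ε : ℝ) (G : Type v) [Group G] : Prop :=
  ∀ (F : Finset G) (δ : ℝ), 0 < δ →
    ∃ (ι : Type) (_ : Fintype ι) (_ : DecidableEq ι) (_ : Nonempty ι)
      (φ : G → (Matrix ι ι K)ˣ),
      (∀ g ∈ F, ∀ h ∈ F, (((φ g : Matrix ι ι K) * (φ h : Matrix ι ι K) -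
          (φ (g * h) : Matrix ι ι K)).rank : ℝ) < δ * Fintype.card ι) ∧
      (∀ g ∈ F, ∀ h ∈ F, g ≠ h → (ε - δ) * Fintype.card ι <
        (((φ g : Matrix ι ι K) - (φ h : Matrix ι ι K)).rank : ℝ))

theorem approximable_iff_gen (K : Type u) [Field K] (ε : ℝ) (G : Type v) [Group G] :
    Approximable K ε G ↔ Gen K ε G := by
  constructor
  · intro h F δ hδ
    obtain ⟨n, hn, φ, h1, h2⟩ := h F δ hδ
    have hn' : (0 : ℝ) < n := by exact_mod_cast hn
    refine ⟨Fin n, inferInstance, inferInstance, ⟨⟨0, hn⟩⟩, φ, ?_, ?_⟩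
    · intro g hg k hk
      have := h1 g hg k hk
      unfold dRank at this
      rw [div_lt_iff₀ hn'] at this
      simpa using this
    · intro g hg k hk hgk
      have := h2 g hg k hk hgk
      unfold dRank at this
      rw [gt_iff_lt, lt_div_iff₀ hn'] at this
      simpa using this
  · intro h F δ hδ
    obtain ⟨ι, i1, i2, i3, φ, h1, h2⟩ := h F δ hδ
    have hn : 0 < Fintype.card ι := Fintype.card_pos
    have hn' : (0 : ℝ) < (Fintype.card ι : ℝ) := by exact_mod_cast hn
    let e := Fintype.equivFin ι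
    refine ⟨Fintype.card ι, hn, fun g => Units.map
      ((Matrix.reindexAlgEquiv K K e : Matrix ι ι K ≃ₐ[K] _) : Matrix ι ι K →* _) (φ g), ?_, ?_⟩
    · intro g hg k hk
      have := h1 g hg k hk
      unfold dRank
      rw [div_lt_iff₀ hn', Units.val_mul]
      simp only [Units.coe_map, MonoidHom.coe_coe]
      rw [← map_mul, ← map_sub, Matrix.coe_reindexAlgEquiv, Matrix.rank_reindex]
      exact this
    · intro g hg k hk hgk
      have := h2 g hg k hk hgk
      unfold dRank
      rw [gt_iff_lt, lt_div_iff₀ hn']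
      simp only [Units.coe_map, MonoidHom.coe_coe]
      rw [← map_sub, Matrix.coe_reindexAlgEquiv, Matrix.rank_reindex]
      exact this

theorem Gen.mono {K : Type u} [Field K] {a b : ℝ} (hab : b ≤ a) {G : Type v} [Group G]
    (h : Gen K a G) : Gen K b G := by
  intro F δ hδ
  obtain ⟨ι, i1, i2, i3, φ, h1, h2⟩ := h F δ hδ
  have hn' : (0 : ℝ) < (Fintype.card ι : ℝ) := by exact_mod_cast Fintype.card_pos
  refine ⟨ι, i1, i2, i3, φ, h1, fun g hg k hk hgk => lt_of_le_of_lt ?_ (h2 g hg k hk hgk)⟩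
  exact mul_le_mul_of_nonneg_right (by linarith) hn'.le

/-- The unit `B ⊗ (A ⊕ 1)`. -/
def tens {K : Type u} [Field K] {ι κ : Type} [Fintype ι] [Fintype κ] [DecidableEq ι]
    [DecidableEq κ] (B : (Matrix ι ι K)ˣ) (A : (Matrix κ κ K)ˣ) :
    (Matrix (ι × (κ ⊕ κ)) (ι × (κ ⊕ κ)) K)ˣ where
  val := (B : Matrix ι ι K) ⊗ₖ fromBlocks (A : Matrix κ κ K) 0 0 1
  inv := ((B⁻¹ : (Matrix ι ι K)ˣ) : Matrix ι ι K) ⊗ₖ
    fromBlocks ((A⁻¹ : (Matrix κ κ K)ˣ) : Matrix κ κ K) 0 0 1
  val_inv := by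
    rw [← Matrix.mul_kronecker_mul, Units.mul_inv, fromBlocks_multiply]
    simp
  inv_val := by
    rw [← Matrix.mul_kronecker_mul, Units.inv_mul, fromBlocks_multiply]
    simp

theorem tens_defect {K : Type u} [Field K] {ι κ : Type} [Fintype ι] [Fintype κ] [DecidableEq ι]
    [DecidableEq κ] (B B' B'' : (Matrix ι ι K)ˣ) (A A' A'' : (Matrix κ κ K)ˣ) :
    ((tens B A).val * (tens B' A').val - (tens B'' A'').val).rank
      ≤ (B.val * B'.val - B''.val).rank * (2 * Fintype.card κ) +
        Fintype.card ι * (A.val * A'.val - A''.val).rank := by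
  have e : (tens B A).val * (tens B' A').val - (tens B'' A'').val
      = (B.val * B'.val - B''.val) ⊗ₖ fromBlocks (A.val * A'.val) 0 0 1
        + (B'' : Matrix ι ι K) ⊗ₖ fromBlocks (A.val * A'.val - A''.val) 0 0 0 := by
    have e1 : fromBlocks (A.val * A'.val - A''.val) 0 0 (0 : Matrix κ κ K) =
        fromBlocks (A.val * A'.val) 0 0 1 - fromBlocks (A'' : Matrix κ κ K) 0 0 1 := by
      rw [sub_eq_add_neg (fromBlocks _ _ _ _), fromBlocks_neg, fromBlocks_add]
      simp [sub_eq_add_neg]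
    rw [e1, kronecker_sub', sub_kronecker']
    simp only [tens]
    rw [← Matrix.mul_kronecker_mul, fromBlocks_multiply]
    simp
  rw [e]
  refine (rank_add_le _ _).trans (Nat.add_le_add ?_ ?_)
  · refine (rank_kronecker_le _ _).trans (Nat.mul_le_mul_left _ ?_)
    refine (Matrix.rank_le_card_width _).trans ?_
    simp [two_mul]
  · refine (rank_kronecker_le _ _).trans (Nat.mul_le_mul (Matrix.rank_le_card_width _) ?_)
    have e2 : fromBlocks (A.val * A'.val - A''.val) 0 0 (0 : Matrix κ κ K) =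
        (Matrix.fromRows (1 : Matrix κ κ K) (0 : Matrix κ κ K)) *
          ((A.val * A'.val - A''.val) * (Matrix.fromCols (1 : Matrix κ κ K)
            (0 : Matrix κ κ K))) := by
      rw [Matrix.mul_fromCols, Matrix.fromRows_mul_fromCols]
      simp
    rw [e2]
    exact (Matrix.rank_mul_le_right _ _).trans (Matrix.rank_mul_le_left _ _)

theorem tens_dist {K : Type u} [Field K] {ι κ : Type} [Fintype ι] [Fintype κ] [DecidableEq ι]
    [DecidableEq κ] (B B' : (Matrix ι ι K)ˣ) (A A' : (Matrix κ κ K)ˣ) :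
    (Fintype.card ι - (B.val - B'.val).rank) * (A.val - A'.val).rank +
      (B.val - B'.val).rank * (Fintype.card κ - (A.val - A'.val).rank) +
      (B.val - B'.val).rank * Fintype.card κ ≤
    ((tens B A).val - (tens B' A').val).rank := by
  have rB : (((B'⁻¹ * B : (Matrix ι ι K)ˣ) : Matrix ι ι K) - 1).rank =
      (B.val - B'.val).rank := by
    apply le_antisymm
    · have : ((B'⁻¹ * B : (Matrix ι ι K)ˣ) : Matrix ι ι K) - 1 =
          ((B'⁻¹ : (Matrix ι ι K)ˣ) : Matrix ι ι K) * (B.val - B'.val) := by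
        rw [mul_sub, Units.inv_mul, Units.val_mul]
      rw [this]; exact Matrix.rank_mul_le_right _ _
    · have : (B.val - B'.val) = (B' : Matrix ι ι K) *
          (((B'⁻¹ * B : (Matrix ι ι K)ˣ) : Matrix ι ι K) - 1) := by
        rw [mul_sub, Units.val_mul, Units.mul_inv_cancel_left, mul_one]
      conv_lhs => rw [this]
      exact Matrix.rank_mul_le_right _ _
  have rA : (((A'⁻¹ * A : (Matrix κ κ K)ˣ) : Matrix κ κ K) - 1).rank =
      (A.val - A'.val).rank := by
    apply le_antisymm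
    · have : ((A'⁻¹ * A : (Matrix κ κ K)ˣ) : Matrix κ κ K) - 1 =
          ((A'⁻¹ : (Matrix κ κ K)ˣ) : Matrix κ κ K) * (A.val - A'.val) := by
        rw [mul_sub, Units.inv_mul, Units.val_mul]
      rw [this]; exact Matrix.rank_mul_le_right _ _
    · have : (A.val - A'.val) = (A' : Matrix κ κ K) *
          (((A'⁻¹ * A : (Matrix κ κ K)ˣ) : Matrix κ κ K) - 1) := by
        rw [mul_sub, Units.val_mul, Units.mul_inv_cancel_left, mul_one]
      conv_lhs => rw [this]
      exact Matrix.rank_mul_le_right _ _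
  have hs := step ((B'⁻¹ * B : (Matrix ι ι K)ˣ) : Matrix ι ι K)
    (((B'⁻¹ * B)⁻¹ : (Matrix ι ι K)ˣ) : Matrix ι ι K) (Units.inv_mul _)
    ((A'⁻¹ * A : (Matrix κ κ K)ˣ) : Matrix κ κ K)
  rw [rA, rB] at hs
  refine hs.trans ?_
  have : ((B'⁻¹ * B : (Matrix ι ι K)ˣ) : Matrix ι ι K) ⊗ₖ
        (fromBlocks ((A'⁻¹ * A : (Matrix κ κ K)ˣ) : Matrix κ κ K) 0 0 (1 : Matrix κ κ K)) - 1 =
      ((tens B' A')⁻¹).val *
        ((tens B A).val - (tens B' A').val) := by
    rw [mul_sub, Units.inv_mul]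
    congr 1
    change _ = (((B'⁻¹ : (Matrix ι ι K)ˣ) : Matrix ι ι K) ⊗ₖ
      fromBlocks ((A'⁻¹ : (Matrix κ κ K)ˣ) : Matrix κ κ K) 0 0 1) *
      ((B : Matrix ι ι K) ⊗ₖ fromBlocks (A : Matrix κ κ K) 0 0 1)
    rw [← Matrix.mul_kronecker_mul, fromBlocks_multiply]
    simp
  rw [this]
  exact Matrix.rank_mul_le_right _ _

/-- One amplification step. -/
theorem Gen.step {K : Type u} [Field K] {a b : ℝ} (ha0 : 0 ≤ a) (ha1 : a ≤ 1) (hb0 : 0 ≤ b)
    (hb : b ≤ 1 / 2)
    {G : Type v} [Group G] (hA : Gen K a G) (hB : Gen K b G) :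
    Gen K (a / 2 + b * (1 - a)) G := by
  intro F δ hδ
  set η : ℝ := min δ 1 / 4 with hη
  have hη0 : 0 < η := by positivity
  have hηδ : 4 * η ≤ δ := by rw [hη]; linarith [min_le_left δ 1]
  have hη1 : 4 * η ≤ 1 := by rw [hη]; linarith [min_le_right δ 1]
  obtain ⟨κ, _, _, _, φ, f1, f2⟩ := hA F η hη0
  obtain ⟨ι, _, _, _, ψ, p1, p2⟩ := hB F η hη0
  have hn : (0 : ℝ) < (Fintype.card κ : ℝ) := by exact_mod_cast Fintype.card_pos
  have hm : (0 : ℝ) < (Fintype.card ι : ℝ) := by exact_mod_cast Fintype.card_pos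
  refine ⟨ι × (κ ⊕ κ), inferInstance, inferInstance, inferInstance,
    fun g => tens (ψ g) (φ g), ?_, ?_⟩
  · intro g hg h hh
    have h1 := tens_defect (ψ g) (ψ h) (ψ (g * h)) (φ g) (φ h) (φ (g * h))
    have h2 := f1 g hg h hh
    have h3 := p1 g hg h hh
    have h1' : ((((tens (ψ g) (φ g)).val * (tens (ψ h) (φ h)).val -
        (tens (ψ (g * h)) (φ (g * h))).val).rank : ℕ) : ℝ) ≤
        (((ψ g).val * (ψ h).val - (ψ (g * h)).val).rank : ℝ) * (2 * Fintype.card κ) +
        Fintype.card ι * (((φ g).val * (φ h).val - (φ (g * h)).val).rank : ℝ) := by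
      exact_mod_cast h1
    have hc : ((Fintype.card (ι × (κ ⊕ κ)) : ℕ) : ℝ) = Fintype.card ι * (2 * Fintype.card κ) := by
      rw [Fintype.card_prod, Fintype.card_sum]; push_cast; ring
    rw [hc]
    refine lt_of_le_of_lt h1' ?_
    have t1 : (((ψ g).val * (ψ h).val - (ψ (g * h)).val).rank : ℝ) * (2 * Fintype.card κ) <
        (η * Fintype.card ι) * (2 * Fintype.card κ) :=
      mul_lt_mul_of_pos_right h3 (by positivity)
    have t2 : (Fintype.card ι : ℝ) * (((φ g).val * (φ h).val - (φ (g * h)).val).rank : ℝ) <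
        Fintype.card ι * (η * Fintype.card κ) := mul_lt_mul_of_pos_left h2 hm
    have t3 : (0 : ℝ) < Fintype.card ι * Fintype.card κ := by positivity
    nlinarith
  · intro g hg h hh hgh
    have h1 := tens_dist (ψ g) (ψ h) (φ g) (φ h)
    have h2 := f2 g hg h hh hgh
    have h3 := p2 g hg h hh hgh
    have rA : ((φ g).val - (φ h).val).rank ≤ Fintype.card κ := Matrix.rank_le_card_width _
    have rB : ((ψ g).val - (ψ h).val).rank ≤ Fintype.card ι := Matrix.rank_le_card_width _
    set n : ℝ := (Fintype.card κ : ℝ)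
    set m : ℝ := (Fintype.card ι : ℝ)
    set x : ℝ := (((φ g).val - (φ h).val).rank : ℝ) with hx
    set y : ℝ := (((ψ g).val - (ψ h).val).rank : ℝ) with hy
    have rA' : x ≤ n := Nat.cast_le.mpr rA
    have rB' : y ≤ m := Nat.cast_le.mpr rB
    have h1' : (m - y) * x + y * (n - x) + y * n ≤
        (((tens (ψ g) (φ g)).val - (tens (ψ h) (φ h)).val).rank : ℝ) := by
      have := h1
      rw [← Nat.cast_le (α := ℝ)] at this
      push_cast [rA, rB] at this
      exact this
    have hc : ((Fintype.card (ι × (κ ⊕ κ)) : ℕ) : ℝ) = m * (2 * n) := by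
      rw [Fintype.card_prod, Fintype.card_sum]; push_cast; ring
    rw [hc]
    refine lt_of_lt_of_le ?_ h1'
    -- normalise
    set α := x / n with hα
    set β := y / m with hβ
    have ex : x = α * n := by rw [hα]; field_simp
    have ey : y = β * m := by rw [hβ]; field_simp
    have hα1 : α ≤ 1 := by rw [hα, div_le_one hn]; exact rA'
    have hβ1 : β ≤ 1 := by rw [hβ, div_le_one hm]; exact rB'
    have hα2 : a - η < α := by rw [hα, lt_div_iff₀ hn]; exact h2
    have hβ2 : b - η < β := by rw [hβ, lt_div_iff₀ hm]; exact h3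
    have hgoal : a / 2 + b * (1 - a) - δ < α / 2 + β * (1 - α) := by
      rcases le_or_gt β (1 / 2) with hb2 | hb2
      · have q1 : α / 2 + β * (1 - α) = β + α * (1 / 2 - β) := by ring
        have q2 : (a - η) * (1 / 2 - β) ≤ α * (1 / 2 - β) :=
          mul_le_mul_of_nonneg_right hα2.le (by linarith)
        have q3 : (b - η) * (1 - (a - η)) ≤ β * (1 - (a - η)) :=
          mul_le_mul_of_nonneg_right hβ2.le (by linarith)
        have q4 : 0 ≤ b * η := mul_nonneg hb0 hη0.le
        have q5 : 0 ≤ a * η := mul_nonneg ha0 hη0.le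
        have q6 : η * η ≤ η * (1 / 4) := mul_le_mul_of_nonneg_left (by linarith) hη0.le
        linarith
      · have q1 : (1 - α) * (1 / 2) ≤ (1 - α) * β :=
          mul_le_mul_of_nonneg_left hb2.le (by linarith)
        have q2 : b * (1 - a) ≤ (1 / 2) * (1 - a) :=
          mul_le_mul_of_nonneg_right hb (by linarith)
        linarith
    have hmn : 0 < m * (2 * n) := by positivity
    have := mul_lt_mul_of_pos_right hgoal hmn
    refine this.trans_le (le_of_eq ?_)
    rw [ex, ey]; ring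

theorem Gen.iterate {K : Type u} [Field K] {a : ℝ} (ha0 : 0 ≤ a) (ha1 : a ≤ 1)
    {G : Type v} [Group G] (hA : Gen K a G) (k : ℕ) :
    Gen K (1 / 2 - (1 - a) ^ k / 2) G := by
  induction k with
  | zero => simpa using hA.mono ha0
  | succ k ih =>
    have h0 : 0 ≤ (1 - a) ^ k := pow_nonneg (by linarith) _
    have h1 : (1 - a) ^ k ≤ 1 := pow_le_one₀ (by linarith) (by linarith)
    have := Gen.step ha0 ha1 (by linarith) (by linarith) hA ih
    convert this using 1
    ring

/-- Amplification to `1/2`. -/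
theorem Gen.half {K : Type u} [Field K] {a : ℝ} (ha0 : 0 < a)
    {G : Type v} [Group G] (hA : Gen K a G) : Gen K (1 / 2) G := by
  rcases le_or_gt (1 / 2) a with h | h
  · exact hA.mono h
  · intro F δ hδ
    obtain ⟨k, hk⟩ := exists_pow_lt_of_lt_one (half_pos hδ) (by linarith : 1 - a < 1)
    obtain ⟨ι, i1, i2, i3, φ, h1, h2⟩ := (hA.iterate ha0.le (by linarith) k) F (δ / 2) (by positivity)
    have hn' : (0 : ℝ) < (Fintype.card ι : ℝ) := by exact_mod_cast Fintype.card_pos
    refine ⟨ι, i1, i2, i3, φ, fun g hg h hh => (h1 g hg h hh).trans ?_,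
      fun g hg h hh hgh => lt_of_le_of_lt ?_ (h2 g hg h hh hgh)⟩
    · exact mul_lt_mul_of_pos_right (by linarith) hn'
    · exact mul_le_mul_of_nonneg_right (by linarith) hn'.le

end Pool.Agent.MP_7f7a01_al
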