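import Mathlib
import Pool.Agent.MP_7f7a01_al.Amplify

namespace Pool.Agent.MP_7f7a01_al

open Matrix Module
open scoped Kronecker

universe u v

theorem rank_eq_zero' {K : Type u} [Field K] {m n : Type*} [Fintype m] [Fintype n]
    (A : Matrix m n K) (h : A.rank = 0) : A = 0 := by
  classical
  unfold Matrix.rank at h
  rw [Submodule.finrank_eq_zero, LinearMap.range_eq_bot] at h
  have h1 : LinearMap.toMatrix' A.mulVecLin = A := by
    rw [← Matrix.toLin'_apply', LinearMap.toMatrix'_toLin']
  rw [← h1, h, map_zero]

/-- left regular representation of a finite group by permutation matrices -/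
def regRep (K : Type u) [Field K] {G : Type v} [Group G] {ι : Type} [Fintype ι] [DecidableEq ι]
    (e : G ≃ ι) : G →* Matrix ι ι K where
  toFun g := Matrix.of fun i j => if i = e (g * e.symm j) then 1 else 0
  map_one' := by
    ext i j
    simp [Matrix.one_apply]
  map_mul' g h := by
    ext i j
    simp only [Matrix.of_apply, Matrix.mul_apply, mul_ite, mul_one, mul_zero]
    rw [Finset.sum_eq_single (e (h * e.symm j))]
    · simp [mul_assoc]
    · intro b _ hb
      simp [hb]
    · simp

theorem regRep_injective (K : Type u) [Field K] {G : Type v} [Group G] {ι : Type} [Fintype ι]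
    [DecidableEq ι] (e : G ≃ ι) : Function.Injective (regRep K e) := by
  intro g h hgh
  have h1 := congrFun (congrFun hgh (e g)) (e 1)
  simp only [regRep, MonoidHom.coe_mk, OneHom.coe_mk, Matrix.of_apply, Equiv.symm_apply_apply,
    mul_one, if_true] at h1
  by_contra hne
  rw [if_neg (fun h' => hne (e.injective h'))] at h1
  exact one_ne_zero h1

/-- a finite group is `1/|G|`-approximable -/
theorem gen_of_finite (K : Type u) [Field K] (G : Type v) [Group G] [Finite G] :
    Gen K (1 / (Nat.card G : ℝ)) G := by
  intro F δ hδ
  have e := Finite.equivFin G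
  have hc : (0 : ℝ) < (Nat.card G : ℝ) := by exact_mod_cast Nat.card_pos
  have : Nonempty (Fin (Nat.card G)) := ⟨e 1⟩
  refine ⟨Fin (Nat.card G), inferInstance, inferInstance, this,
    fun g => (regRep K e).toHomUnits g, ?_, ?_⟩
  · intro g _ h _
    have h0 : (((regRep K e).toHomUnits g).val * ((regRep K e).toHomUnits h).val -
        ((regRep K e).toHomUnits (g * h)).val) = 0 := by
      rw [map_mul, Units.val_mul, sub_self]
    rw [h0, Matrix.rank_zero, Nat.cast_zero, Fintype.card_fin]
    positivity
  · intro g _ h _ hgh
    simp only [MonoidHom.coe_toHomUnits, Fintype.card_fin]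
    have h1 : (regRep K e) g - (regRep K e) h ≠ 0 := by
      rw [sub_ne_zero]
      exact fun h' => hgh (regRep_injective K e h')
    have h2 : 1 ≤ ((regRep K e) g - (regRep K e) h).rank := by
      rw [Nat.one_le_iff_ne_zero]
      intro h0
      apply h1
      exact rank_eq_zero' _ h0
    have h3 : (1 : ℝ) ≤ (((regRep K e) g - (regRep K e) h).rank : ℝ) := by exact_mod_cast h2
    refine lt_of_lt_of_le ?_ h3
    rw [sub_mul, one_div, inv_mul_cancel₀ hc.ne']
    nlinarith

/-- every finite group is `1/2`-approximable over every field -/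
theorem gen_half_of_finite (K : Type u) [Field K] (G : Type v) [Group G] [Finite G] :
    Gen K (1 / 2) G := by
  refine Gen.half ?_ (gen_of_finite K G)
  have hc : (0 : ℝ) < (Nat.card G : ℝ) := by exact_mod_cast Nat.card_pos
  positivity

end Pool.Agent.MP_7f7a01_al
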