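import Mathlib
import Pool.Agent.MP_7f7a01_al.Finite

namespace Pool.Agent.MP_7f7a01_al

open Matrix Module
open scoped Kronecker

universe u v

/-- Sylvester's rank inequality -/
theorem sylvester {K : Type u} [Field K] {n : Type*} [Fintype n] 
    (X Y : Matrix n n K) : X.rank + Y.rank ≤ Fintype.card n + (X * Y).rank := by
  classical
  set R := LinearMap.range Y.mulVecLin with hR
  have hmain := LinearMap.finrank_range_add_finrank_ker (X.mulVecLin.domRestrict R)
  have h1 : LinearMap.range (X.mulVecLin.domRestrict R) ≤ LinearMap.range (X * Y).mulVecLin := by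
    rintro _ ⟨⟨_, y, rfl⟩, rfl⟩
    refine ⟨y, ?_⟩
    simp [Matrix.mulVec_mulVec]
  have h2 : (LinearMap.ker (X.mulVecLin.domRestrict R)).map R.subtype ≤
      LinearMap.ker X.mulVecLin := by
    rintro _ ⟨⟨z, hz⟩, hzk, rfl⟩
    exact hzk
  have h1' := Submodule.finrank_mono h1
  have h2' := Submodule.finrank_mono h2
  rw [Submodule.finrank_map_subtype_eq] at h2'
  have h3 := LinearMap.finrank_range_add_finrank_ker X.mulVecLin
  rw [Module.finrank_fintype_fun_eq_card] at h3
  have h4 : X.rank = finrank K (LinearMap.range X.mulVecLin) := rfl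
  have h5 : Y.rank = finrank K R := rfl
  have h6 : (X * Y).rank = finrank K (LinearMap.range (X * Y).mulVecLin) := rfl
  omega

/-- `rank (I - 1) ≤ rank (I * I - I)` for a unit `I`. -/
theorem rank_unit_sub_one {K : Type u} [Field K] {n : Type*} [Fintype n] [DecidableEq n]
    (I : (Matrix n n K)ˣ) : (I.val - 1).rank ≤ (I.val * I.val - I.val).rank := by
  have : I.val - 1 = (I⁻¹).val * (I.val * I.val - I.val) := by
    rw [mul_sub, Units.inv_mul_cancel_left, Units.inv_mul]
  rw [this]; exact Matrix.rank_mul_le_right _ _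

theorem not_gen_char_two {K : Type u} [Field K] [CharP K 2] {ε : ℝ} (hε : 1 / 2 < ε)
    {G : Type v} [Group G] (g : G) (hg1 : g ≠ 1) (hg2 : g * g = 1) : ¬ Gen K ε G := by
  classical
  intro h
  obtain ⟨ι, i1, i2, i3, φ, h1, h2⟩ := h {1, g} ((2 * ε - 1) / 8) (by linarith)
  set δ := (2 * ε - 1) / 8 with hδ
  have hn : (0 : ℝ) < (Fintype.card ι : ℝ) := by exact_mod_cast Fintype.card_pos
  have a1 := h1 1 (by simp) 1 (by simp)
  have a2 := h1 g (by simp) g (by simp)
  have a3 := h2 g (by simp) 1 (by simp) hg1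
  rw [mul_one] at a1
  rw [hg2] at a2
  have b1 : ((φ 1).val - 1).rank ≤ ((φ 1).val * (φ 1).val - (φ 1).val).rank :=
    rank_unit_sub_one _
  have b2 : ((φ g).val * (φ g).val - 1).rank ≤
      ((φ g).val * (φ g).val - (φ 1).val).rank + ((φ 1).val - 1).rank := by
    have : (φ g).val * (φ g).val - 1 =
        ((φ g).val * (φ g).val - (φ 1).val) + ((φ 1).val - 1) := by abel
    rw [this]; exact rank_add_le _ _
  have b3 : ((φ g).val - (φ 1).val).rank ≤ ((φ g).val - 1).rank + ((φ 1).val - 1).rank := by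
    have : (φ g).val - (φ 1).val = ((φ g).val - 1) - ((φ 1).val - 1) := by abel
    rw [this]; exact rank_sub_le _ _
  have b4 : ((φ g).val - 1) * ((φ g).val - 1) = (φ g).val * (φ g).val - 1 := by
    have h2 : (2 : Matrix ι ι K) = 0 := by
      have : (2 : Matrix ι ι K) = algebraMap K (Matrix ι ι K) 2 :=
        (map_ofNat (algebraMap K (Matrix ι ι K)) 2).symm
      rw [this, CharTwo.two_eq_zero, map_zero]
    have : ((φ g).val - 1) * ((φ g).val - 1) = (φ g).val * (φ g).val - 1 -
        (2 : Matrix ι ι K) * ((φ g).val - 1) := by noncomm_ring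
    rw [this, h2, zero_mul, sub_zero]
  have b5 := sylvester ((φ g).val - 1) ((φ g).val - 1)
  rw [b4] at b5
  have b1' : (((φ 1).val - 1).rank : ℝ) ≤ (((φ 1).val * (φ 1).val - (φ 1).val).rank : ℝ) := by
    exact_mod_cast b1
  have b2' : (((φ g).val * (φ g).val - 1).rank : ℝ) ≤
      (((φ g).val * (φ g).val - (φ 1).val).rank : ℝ) + (((φ 1).val - 1).rank : ℝ) := by
    exact_mod_cast b2
  have b3' : (((φ g).val - (φ 1).val).rank : ℝ) ≤ (((φ g).val - 1).rank : ℝ) +
      (((φ 1).val - 1).rank : ℝ) := by exact_mod_cast b3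
  have b5' : (((φ g).val - 1).rank : ℝ) + (((φ g).val - 1).rank : ℝ) ≤
      Fintype.card ι + (((φ g).val * (φ g).val - 1).rank : ℝ) := by exact_mod_cast b5
  have e1 : (ε - δ) * (Fintype.card ι : ℝ) * 2 - Fintype.card ι - 4 * (δ * Fintype.card ι) < 0 := by
    linarith
  have e2 : (ε - δ) * (Fintype.card ι : ℝ) * 2 - Fintype.card ι - 4 * (δ * Fintype.card ι) =
      (2 * ε - 1 - 6 * δ) * Fintype.card ι := by ring
  rw [e2] at e1
  have e3 : 0 < 2 * ε - 1 - 6 * δ := by rw [hδ]; linarith
  nlinarith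

end Pool.Agent.MP_7f7a01_al
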