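import Mathlib
import Pool.Agent.MP_7f7a01_al.Finite

namespace Pool.Agent.MP_7f7a01_al

open Matrix Module
open scoped Kronecker

universe u v

/-- sign character of `ZMod 2` -/
def sg (x : ZMod 2) : ℤ := if x = 0 then 1 else -1

theorem sg_zero : sg 0 = 1 := by simp [sg]

theorem sg_add (x y : ZMod 2) : sg (x + y) = sg x * sg y := by
  revert x y; decide

theorem sg_sum (x : ZMod 2) : ∑ a : ZMod 2, sg (a * x) = if x = 0 then 2 else 0 := by
  revert x; decide

variable {k : ℕ}

/-- characters of `(ZMod 2)^k` -/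
def chi (a g : Fin k → ZMod 2) : ℤ := ∏ i, sg (a i * g i)

theorem chi_comm (a g : Fin k → ZMod 2) : chi a g = chi g a := by
  unfold chi; simp only [mul_comm]

theorem chi_add (a g h : Fin k → ZMod 2) : chi a (g + h) = chi a g * chi a h := by
  unfold chi
  rw [← Finset.prod_mul_distrib]
  refine Finset.prod_congr rfl fun i _ => ?_
  rw [Pi.add_apply, mul_add, sg_add]

theorem chi_add_left (a b g : Fin k → ZMod 2) : chi (a + b) g = chi a g * chi b g := by
  rw [chi_comm, chi_add, chi_comm g, chi_comm g]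

theorem chi_zero (a : Fin k → ZMod 2) : chi a 0 = 1 := by
  unfold chi
  simp [sg_zero]

theorem chi_sq (a g : Fin k → ZMod 2) : chi a g = 1 ∨ chi a g = -1 := by
  have : chi a g * chi a g = 1 := by
    rw [← chi_add, ← chi_zero a]
    congr 1
    funext i
    exact CharTwo.add_self_eq_zero _
  exact mul_self_eq_one_iff.mp this

theorem chi_sum (g : Fin k → ZMod 2) :
    ∑ a : Fin k → ZMod 2, chi a g = if g = 0 then 2 ^ k else 0 := by
  unfold chi
  have := (Finset.prod_univ_sum (fun _ : Fin k => (Finset.univ : Finset (ZMod 2)))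
    (fun i x => sg (x * g i))).symm
  rw [Fintype.piFinset_univ] at this
  rw [this]
  simp only [sg_sum]
  split_ifs with h
  · subst h; simp
  · obtain ⟨i, hi⟩ := Function.ne_iff.mp h
    exact Finset.prod_eq_zero (Finset.mem_univ i) (by simpa using hi)

theorem chi_sum' (a : Fin k → ZMod 2) :
    ∑ g : Fin k → ZMod 2, chi a g = if a = 0 then 2 ^ k else 0 := by
  rw [← chi_sum a]
  exact Finset.sum_congr rfl fun g _ => chi_comm _ _

section Fourier

variable {K : Type u} [Field K] {ι : Type} [Fintype ι] [DecidableEq ι]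

/-- Fourier transform of `φ` -/
noncomputable def fe (φ : (Fin k → ZMod 2) → Matrix ι ι K) (a : Fin k → ZMod 2) : Matrix ι ι K :=
  ((2 : K) ^ k)⁻¹ • ∑ g, ((chi a g : ℤ) : K) • φ g

omit [Fintype ι] [DecidableEq ι] in
theorem fe_inv (h2 : (2 : K) ≠ 0) (φ : (Fin k → ZMod 2) → Matrix ι ι K) (g : Fin k → ZMod 2) :
    φ g = ∑ a, ((chi a g : ℤ) : K) • fe φ a := by
  have hN : ((2 : K) ^ k) ≠ 0 := pow_ne_zero _ h2
  have h1 : ∑ a, ((chi a g : ℤ) : K) • fe φ a =
      ((2 : K) ^ k)⁻¹ • ∑ h, (((∑ a, chi a (g + h)) : ℤ) : K) • φ h := by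
    unfold fe
    simp only [Finset.smul_sum, smul_smul]
    rw [Finset.sum_comm]
    refine Finset.sum_congr rfl fun h _ => ?_
    rw [← Finset.sum_smul]
    congr 1
    rw [Int.cast_sum, Finset.mul_sum]
    refine Finset.sum_congr rfl fun a _ => ?_
    rw [chi_add]
    push_cast
    ring
  rw [h1]
  have h3 : ∀ h : Fin k → ZMod 2, (((∑ a, chi a (g + h)) : ℤ) : K) • φ h =
      if h = g then ((2 : K) ^ k) • φ g else 0 := by
    intro h
    rw [chi_sum]
    have : g + h = 0 ↔ h = g := by
      constructor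
      · intro h'
        have := eq_neg_of_add_eq_zero_right h'
        rw [this]
        funext i
        exact ZModModule.neg_eq_self (g i)
      · rintro rfl
        funext i
        exact CharTwo.add_self_eq_zero _
    by_cases hh : h = g
    · rw [if_pos (this.mpr hh), if_pos hh, hh]; push_cast; rfl
    · rw [if_neg (fun h' => hh (this.mp h')), if_neg hh]; simp
  simp only [h3]
  rw [Finset.sum_ite_eq' Finset.univ g, if_pos (Finset.mem_univ _), smul_smul,
    inv_mul_cancel₀ hN, one_smul]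

omit [DecidableEq ι] in
theorem fe_mul (h2 : (2 : K) ≠ 0) (φ : (Fin k → ZMod 2) → Matrix ι ι K) (a b : Fin k → ZMod 2) :
    fe φ a * fe φ b - (if a = b then fe φ a else 0) =
      ((2 : K) ^ k)⁻¹ • ((2 : K) ^ k)⁻¹ • ∑ g, ∑ h, ((chi a g * chi b h : ℤ) : K) •
        (φ g * φ h - φ (g + h)) := by
  have hN : ((2 : K) ^ k) ≠ 0 := pow_ne_zero _ h2
  have e1 : fe φ a * fe φ b = ((2 : K) ^ k)⁻¹ • ((2 : K) ^ k)⁻¹ • ∑ g, ∑ h,
      ((chi a g * chi b h : ℤ) : K) • (φ g * φ h) := by
    unfold fe
    rw [Matrix.smul_mul, Matrix.mul_smul, Finset.sum_mul]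
    congr 2
    refine Finset.sum_congr rfl fun g _ => ?_
    rw [Finset.mul_sum]
    refine Finset.sum_congr rfl fun h _ => ?_
    rw [Matrix.smul_mul, Matrix.mul_smul, smul_smul]
    push_cast; rfl
  have e2 : (if a = b then fe φ a else 0) = ((2 : K) ^ k)⁻¹ • ((2 : K) ^ k)⁻¹ • ∑ g, ∑ h,
      ((chi a g * chi b h : ℤ) : K) • φ (g + h) := by
    have e3 : ∀ g : Fin k → ZMod 2, ∑ h, ((chi a g * chi b h : ℤ) : K) • φ (g + h) =
        ∑ u, ((chi (a + b) g * chi b u : ℤ) : K) • φ u := by
      intro g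
      rw [← Equiv.sum_comp (Equiv.addLeft g)
        (fun u => ((chi (a + b) g * chi b u : ℤ) : K) • φ u)]
      refine Finset.sum_congr rfl fun h _ => ?_
      rw [Equiv.coe_addLeft]
      simp only []
      rw [chi_add, chi_add_left]
      have : chi b g * chi b g = 1 := by
        rcases chi_sq b g with h' | h' <;> rw [h'] <;> norm_num
      congr 2
      linear_combination (-(chi a g * chi b h)) * this
    simp only [e3]
    rw [Finset.sum_comm]
    have e4 : ∀ u : Fin k → ZMod 2, ∑ g, ((chi (a + b) g * chi b u : ℤ) : K) • φ u =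
        (if a = b then ((2 : K) ^ k) else 0) • ((chi b u : ℤ) : K) • φ u := by
      intro u
      rw [← Finset.sum_smul, smul_smul]
      congr 1
      push_cast
      rw [← Finset.sum_mul]
      congr 1
      rw [← Int.cast_sum, chi_sum']
      have : a + b = 0 ↔ a = b := by
        constructor
        · intro h'
          have := eq_neg_of_add_eq_zero_left h'
          rw [this]
          funext i
          exact ZModModule.neg_eq_self (b i)
        · rintro rfl
          funext i
          exact CharTwo.add_self_eq_zero _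
      by_cases hh : a = b
      · rw [if_pos (this.mpr hh), if_pos hh]; push_cast; rfl
      · rw [if_neg (fun h' => hh (this.mp h')), if_neg hh]; simp
    simp only [e4]
    rw [← Finset.smul_sum]
    split_ifs with hab
    · rw [hab]; unfold fe
      rw [smul_smul, smul_smul]
      congr 1
      field_simp
    · simp
  rw [e1, e2, ← smul_sub, ← smul_sub, ← Finset.sum_sub_distrib]
  congr 2
  refine Finset.sum_congr rfl fun g _ => ?_
  rw [← Finset.sum_sub_distrib]
  refine Finset.sum_congr rfl fun h _ => ?_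
  rw [← smul_sub]

/-- approximately orthogonal idempotents: total rank -/
theorem sum_rank_le {V : Type} [Fintype V] [DecidableEq V] (e : V → Matrix ι ι K) :
    ∑ a, (e a).rank ≤ Fintype.card ι +
      ∑ a, ∑ b, (e a * e b - (if a = b then e a else 0)).rank := by
  let C : Matrix (ι × V) ι K := Matrix.of fun p j => e p.2 p.1 j
  let R : Matrix ι (ι × V) K := Matrix.of fun i p => e p.2 i p.1
  have h1 : blockDiagonal e = C * R - ∑ a, ∑ b,
      (e a * e b - (if a = b then e a else 0)) ⊗ₖ Matrix.single a b (1 : K) := by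
    ext ⟨i, a⟩ ⟨j, b⟩
    rw [Matrix.sub_apply, Matrix.sum_apply]
    have : ∀ a' : V, (∑ b', (e a' * e b' - (if a' = b' then e a' else 0)) ⊗ₖ
        Matrix.single a' b' (1 : K)) (i, a) (j, b) =
        if a' = a then (e a * e b - (if a = b then e a else 0)) i j else 0 := by
      intro a'
      rw [Matrix.sum_apply]
      simp only [Matrix.kroneckerMap_apply, Matrix.single_apply]
      by_cases h : a' = a
      · subst h
        simp
      · simp [h]
    simp only [this]
    rw [Finset.sum_ite_eq' Finset.univ a, if_pos (Finset.mem_univ _), blockDiagonal_apply,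
      Matrix.mul_apply]
    simp only [C, R, Matrix.of_apply]
    rw [Matrix.sub_apply, Matrix.mul_apply]
    split_ifs with h
    · simp
    · simp
  refine (rank_blockDiagonal_ge e).trans ?_
  rw [h1]
  refine (rank_sub_le _ _).trans (Nat.add_le_add ?_ ?_)
  · exact (Matrix.rank_mul_le_left _ _).trans (Matrix.rank_le_card_width _)
  · refine (rank_sum_le _ _).trans (Finset.sum_le_sum fun a _ => ?_)
    refine (rank_sum_le _ _).trans (Finset.sum_le_sum fun b _ => ?_)
    refine (rank_kronecker_le _ _).trans ?_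
    have : (Matrix.single a b (1 : K)).rank ≤ 1 := by
      have : Matrix.single a b (1 : K) = Matrix.vecMulVec (Pi.single a 1) (Pi.single b 1) := by
        ext i j
        rw [Matrix.vecMulVec_apply, Matrix.single_apply, Pi.single_apply, Pi.single_apply]
        by_cases h1 : a = i <;> by_cases h2 : b = j <;> simp [h1, h2, eq_comm]
      rw [this]
      exact Matrix.rank_vecMulVec_le _ _
    calc _ ≤ (e a * e b - (if a = b then e a else 0)).rank * 1 := Nat.mul_le_mul_left _ this
      _ = _ := mul_one _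

/-- average distance to the identity of an approximate representation of `(ZMod 2)^k` -/
theorem sum_dist_le (h2 : (2 : K) ≠ 0) (φ : (Fin k → ZMod 2) → Matrix ι ι K) (D : ℕ)
    (hD : ∀ g h, (φ g * φ h - φ (g + h)).rank ≤ D) :
    2 * ∑ g, (φ g - φ 0).rank ≤ 2 ^ k * (Fintype.card ι + (2 ^ k) ^ 4 * D) := by
  have hcard : Fintype.card (Fin k → ZMod 2) = 2 ^ k := by simp
  -- Step A: total rank of the idempotents
  have hA : ∑ a, (fe φ a).rank ≤ Fintype.card ι + (2 ^ k) ^ 4 * D := by
    refine (sum_rank_le (fe φ)).trans (Nat.add_le_add_left ?_ _)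
    have h1 : ∀ a b, (fe φ a * fe φ b - (if a = b then fe φ a else 0)).rank ≤
        (2 ^ k) * ((2 ^ k) * D) := by
      intro a b
      rw [fe_mul h2]
      refine (rank_smul_le _ _).trans ((rank_smul_le _ _).trans ?_)
      refine (rank_sum_le _ _).trans ?_
      have h3 : ∀ g ∈ (Finset.univ : Finset (Fin k → ZMod 2)),
          (∑ h, ((chi a g * chi b h : ℤ) : K) • (φ g * φ h - φ (g + h))).rank ≤ (2 ^ k) * D := by
        intro g _
        refine (rank_sum_le _ _).trans ?_
        refine (Finset.sum_le_card_nsmul _ _ D fun h _ =>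
          (rank_smul_le _ _).trans (hD g h)).trans ?_
        rw [Finset.card_univ, hcard, smul_eq_mul]
      refine (Finset.sum_le_card_nsmul _ _ _ h3).trans ?_
      rw [Finset.card_univ, hcard, smul_eq_mul]
    calc ∑ a, ∑ b, (fe φ a * fe φ b - (if a = b then fe φ a else 0)).rank
        ≤ ∑ a : Fin k → ZMod 2, ∑ b : Fin k → ZMod 2, (2 ^ k) * ((2 ^ k) * D) :=
          Finset.sum_le_sum fun a _ => Finset.sum_le_sum fun b _ => h1 a b
      _ = (2 ^ k) ^ 4 * D := by
          simp only [Finset.sum_const, Finset.card_univ, hcard, smul_eq_mul]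
          ring
  -- Step B: each difference
  have hB : ∀ g, (φ g - φ 0).rank ≤ ∑ a, (if chi a g = -1 then (fe φ a).rank else 0) := by
    intro g
    have : φ g - φ 0 = ∑ a, (((chi a g - 1 : ℤ) : K) • fe φ a) := by
      conv_lhs => rw [fe_inv h2 φ g, fe_inv h2 φ 0]
      rw [← Finset.sum_sub_distrib]
      refine Finset.sum_congr rfl fun a _ => ?_
      rw [chi_zero, ← sub_smul]
      push_cast; rfl
    rw [this]
    refine (rank_sum_le _ _).trans (Finset.sum_le_sum fun a _ => ?_)
    split_ifs with h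
    · exact rank_smul_le _ _
    · rcases chi_sq a g with h' | h'
      · rw [h']; simp
      · exact absurd h' h
  -- Step C: count
  have hC : ∀ a : Fin k → ZMod 2, 2 * (Finset.univ.filter fun g => chi a g = -1).card ≤ 2 ^ k := by
    intro a
    have h1 : (2 : ℤ) * ((Finset.univ.filter fun g => chi a g = -1).card : ℤ) =
        2 ^ k - ∑ g : Fin k → ZMod 2, chi a g := by
      rw [Finset.card_filter]
      push_cast
      rw [Finset.mul_sum]
      have h5 : ((2 : ℤ) ^ k) = ∑ g : Fin k → ZMod 2, (1 : ℤ) := by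
        rw [Finset.sum_const, Finset.card_univ, hcard]; simp
      rw [h5, ← Finset.sum_sub_distrib]
      refine Finset.sum_congr rfl fun g _ => ?_
      rcases chi_sq a g with h' | h' <;> rw [h'] <;> norm_num
    have h2' : 0 ≤ ∑ g : Fin k → ZMod 2, chi a g := by
      rw [chi_sum']
      split_ifs
      · positivity
      · exact le_rfl
    have h3 : (2 : ℤ) * ((Finset.univ.filter fun g => chi a g = -1).card : ℤ) ≤ 2 ^ k := by
      rw [h1]; linarith
    exact_mod_cast h3
  calc 2 * ∑ g, (φ g - φ 0).rank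
      ≤ 2 * ∑ g, ∑ a, (if chi a g = -1 then (fe φ a).rank else 0) :=
        Nat.mul_le_mul_left _ (Finset.sum_le_sum fun g _ => hB g)
    _ = ∑ a, (2 * (Finset.univ.filter fun g => chi a g = -1).card) * (fe φ a).rank := by
        rw [Finset.sum_comm, Finset.mul_sum]
        refine Finset.sum_congr rfl fun a _ => ?_
        rw [← Finset.sum_filter, Finset.sum_const, smul_eq_mul, mul_assoc]
    _ ≤ ∑ a, 2 ^ k * (fe φ a).rank := Finset.sum_le_sum fun a _ => Nat.mul_le_mul_right _ (hC a)
    _ = 2 ^ k * ∑ a, (fe φ a).rank := by rw [Finset.mul_sum]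
    _ ≤ _ := Nat.mul_le_mul_left _ hA

end Fourier

theorem exists_max_lt {α β : Type*} [Finite α] [Finite β] [Nonempty α] [Nonempty β]
    (r : α → β → ℕ) (x : ℝ) (h : ∀ a b, (r a b : ℝ) < x) :
    ∃ D : ℕ, (∀ a b, r a b ≤ D) ∧ (D : ℝ) < x := by
  obtain ⟨p, hp⟩ := Finite.exists_max (fun p : α × β => r p.1 p.2)
  exact ⟨r p.1 p.2, fun a b => hp (a, b), h _ _⟩

theorem not_gen_char_ne_two {K : Type u} [Field K] (h2 : (2 : K) ≠ 0) {ε : ℝ} 
    (hk : (2 : ℝ) ^ k < 2 * ((2 : ℝ) ^ k - 1) * ε) {G : Type v} [Group G]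
    (e : Multiplicative (Fin k → ZMod 2) ≃* G) : ¬ Gen K ε G := by
  classical
  intro h
  set N : ℝ := (2 : ℝ) ^ k with hN
  have hN1 : 1 ≤ N := one_le_pow₀ (by norm_num)
  set δ : ℝ := (2 * (N - 1) * ε - N) / (2 * (N ^ 5 + 2 * N)) with hδ
  have hδ0 : 0 < δ := by
    apply div_pos (by linarith)
    positivity
  have hcard : Fintype.card (Fin k → ZMod 2) = 2 ^ k := by simp
  let f : (Fin k → ZMod 2) → G := fun a => e (Multiplicative.ofAdd a)
  have hf : Function.Injective f := fun a b hab => Multiplicative.ofAdd.injective (e.injective hab)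
  have hfm : ∀ a b, f a * f b = f (a + b) := by
    intro a b
    simp only [f, ← map_mul, ofAdd_add]
  obtain ⟨ι, i1, i2, i3, ψ, h1, h3⟩ := h (Finset.univ.image f) δ hδ0
  have hn : (0 : ℝ) < (Fintype.card ι : ℝ) := by exact_mod_cast Fintype.card_pos
  set n : ℝ := (Fintype.card ι : ℝ) with hn'
  let φ : (Fin k → ZMod 2) → Matrix ι ι K := fun a => (ψ (f a)).val
  -- defect
  obtain ⟨D, hD, hDδ⟩ : ∃ D : ℕ, (∀ g h, (φ g * φ h - φ (g + h)).rank ≤ D) ∧ (D : ℝ) < δ * n := by
    apply exists_max_lt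
    intro g h
    have := h1 (f g) (by simp) (f h) (by simp)
    rw [hfm] at this
    exact this
  have hmain := sum_dist_le h2 φ D hD
  have hmain' : 2 * ∑ g, ((φ g - φ 0).rank : ℝ) ≤ N * (n + N ^ 4 * D) := by
    have : ((2 * ∑ g, (φ g - φ 0).rank : ℕ) : ℝ) ≤
        ((2 ^ k * (Fintype.card ι + (2 ^ k) ^ 4 * D) : ℕ) : ℝ) := Nat.cast_le.mpr hmain
    push_cast at this
    exact this
  -- lower bound
  have hlow : (N - 1) * ((ε - δ) * n) ≤ ∑ g, ((φ g - φ 0).rank : ℝ) := by
    rw [← Finset.add_sum_erase _ _ (Finset.mem_univ (0 : Fin k → ZMod 2))]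
    have h5 : (((Finset.univ.erase (0 : Fin k → ZMod 2)).card : ℕ) : ℝ) = N - 1 := by
      rw [Finset.card_erase_of_mem (Finset.mem_univ _), Finset.card_univ, hcard,
        Nat.cast_sub Nat.one_le_two_pow]
      push_cast; rfl
    have h6 : (N - 1) * ((ε - δ) * n) ≤ ∑ g ∈ Finset.univ.erase (0 : Fin k → ZMod 2),
        ((φ g - φ 0).rank : ℝ) := by
      rw [← h5, ← nsmul_eq_mul]
      refine Finset.card_nsmul_le_sum _ _ _ fun g hg => ?_
      have hg0 : g ≠ 0 := Finset.ne_of_mem_erase hg
      exact (h3 (f g) (by simp) (f 0) (by simp) (fun h' => hg0 (hf h'))).le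
    have h7 : (0 : ℝ) ≤ ((φ 0 - φ 0).rank : ℝ) := Nat.cast_nonneg _
    linarith
  have hN4 : N ^ 4 * D ≤ N ^ 4 * (δ * n) := mul_le_mul_of_nonneg_left hDδ.le (by positivity)
  have hfin : 2 * ((N - 1) * ((ε - δ) * n)) ≤ N * (n + N ^ 4 * (δ * n)) := by
    have : N * (n + N ^ 4 * D) ≤ N * (n + N ^ 4 * (δ * n)) :=
      mul_le_mul_of_nonneg_left (by linarith) (by linarith)
    linarith
  have hfin2 : (2 * (N - 1) * ε - N) * n ≤ (δ * (N ^ 5 + 2 * N - 2)) * n := by
    have e1 : 2 * ((N - 1) * ((ε - δ) * n)) = (2 * (N - 1) * ε - 2 * (N - 1) * δ) * n := by ring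
    have e2 : N * (n + N ^ 4 * (δ * n)) = (N + N ^ 5 * δ) * n := by ring
    rw [e1, e2] at hfin
    nlinarith
  have hfin3 := le_of_mul_le_mul_right hfin2 hn
  have e3 : δ * (N ^ 5 + 2 * N - 2) < δ * (2 * (N ^ 5 + 2 * N)) := by
    apply mul_lt_mul_of_pos_left _ hδ0
    have : 0 < N ^ 5 := by positivity
    linarith
  have e4 : δ * (2 * (N ^ 5 + 2 * N)) = 2 * (N - 1) * ε - N := by
    rw [hδ]
    field_simp
  linarith

end Pool.Agent.MP_7f7a01_al
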